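import Pool.Agent.N939.ME.Stm

/-!
PROJECT ME (helper939), part ME10 (helper507): small sets, variance, `o(N)`.
-/

set_option autoImplicit false
open MeasureTheory ProbabilityTheory Filter Topology Finset
open scoped Classical

namespace Pool.Agent.N507.ME

open Pool.Agent.N939.ME

variable {S : Type} [MeasurableSpace S] {ν : Measure S} [IsProbabilityMeasure ν]

theorem ae_lam : ∀ᵐ r ∂lam, r ∈ Set.Ioo (0 : ℝ) 1 := ae_restrict_mem measurableSet_Ioo

theorem ae01 : ∀ᵐ p ∂(nuh ν), p.1 ∈ Set.Ioo (0 : ℝ) 1 :=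
  (Measure.quasiMeasurePreserving_fst (μ := lam) (ν := ν)).ae ae_lam

theorem geom_le {r : ℝ} (hr : r ∈ Set.Ioo (0 : ℝ) 1) (N : ℕ) :
    0 ≤ ∑ i ∈ range N, r ^ (2 * i) ∧ ∑ i ∈ range N, r ^ (2 * i) ≤ N ∧
      ∑ i ∈ range N, r ^ (2 * i) ≤ 1 / (1 - r ^ 2) := by
  have h0 : 0 ≤ r := hr.1.le
  have h1 : r ^ 2 < 1 := by nlinarith [hr.1, hr.2]
  refine ⟨Finset.sum_nonneg fun i _ => by positivity, ?_, ?_⟩
  · calc ∑ i ∈ range N, r ^ (2 * i) ≤ ∑ i ∈ range N, (1 : ℝ) :=
        Finset.sum_le_sum fun i _ => pow_le_one₀ h0 hr.2.le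
      _ = N := by simp
  · have h2 : ∀ i, r ^ (2 * i) = (r ^ 2) ^ i := fun i => pow_mul r 2 i
    simp only [h2]
    rw [geom_sum_eq h1.ne]
    have h3 : 0 < 1 - r ^ 2 := by linarith
    rw [le_div_iff₀ h3]
    have h4 : ((r ^ 2) ^ N - 1) / (r ^ 2 - 1) * (1 - r ^ 2) = 1 - (r ^ 2) ^ N := by
      have h5 : r ^ 2 - 1 ≠ 0 := by linarith
      field_simp
      ring
    rw [h4]
    have : 0 ≤ (r ^ 2) ^ N := by positivity
    linarith

theorem on : S_ON := by
  intro S _ ν _ F hF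
  have h1 : ∀ N : ℕ, (∫ p, F p * ∑ i ∈ range N, p.1 ^ (2 * i) ∂(nuh ν)) / N =
      ∫ p, F p * ((∑ i ∈ range N, p.1 ^ (2 * i)) / N) ∂(nuh ν) := by
    intro N
    rw [← integral_div]
    refine integral_congr_ae (ae_of_all _ fun p => ?_)
    show F p * (∑ i ∈ range N, p.1 ^ (2 * i)) / N = _
    rw [mul_div_assoc]
  simp only [h1]
  have h2 : ∫ p : ℝ × S, (0 : ℝ) ∂(nuh ν) = 0 := by simp
  rw [← h2]
  refine tendsto_integral_of_dominated_convergence (fun p => |F p|) ?_ hF.abs ?_ ?_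
  · intro N
    refine hF.aestronglyMeasurable.mul ?_
    refine Measurable.aestronglyMeasurable ?_
    refine Measurable.div_const ?_ _
    exact Finset.measurable_fun_sum _ fun i _ => measurable_fst.pow_const _
  · intro N
    filter_upwards [ae01 (ν := ν)] with p hp
    obtain ⟨g1, g2, g3⟩ := geom_le hp N
    rw [norm_mul, Real.norm_eq_abs, Real.norm_eq_abs]
    have h3 : |(∑ i ∈ range N, p.1 ^ (2 * i)) / N| ≤ 1 := by
      rw [abs_of_nonneg (div_nonneg g1 (Nat.cast_nonneg _))]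
      exact div_le_one_of_le₀ g2 (Nat.cast_nonneg _)
    exact mul_le_of_le_one_right (abs_nonneg _) h3
  · filter_upwards [ae01 (ν := ν)] with p hp
    have h3 : Tendsto (fun N : ℕ => (∑ i ∈ range N, p.1 ^ (2 * i)) / N) atTop (𝓝 0) := by
      refine squeeze_zero (g := fun N : ℕ => 1 / (1 - p.1 ^ 2) / N)
        (fun N => div_nonneg (geom_le hp N).1 (Nat.cast_nonneg _)) (fun N => ?_) ?_
      · exact div_le_div_of_nonneg_right (geom_le hp N).2.2 (Nat.cast_nonneg _)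
      · exact tendsto_const_div_atTop_nhds_zero_nat _
    have h4 := h3.const_mul (F p)
    rwa [mul_zero] at h4

theorem memLp_snd {f : S → ℝ} (hf : MemLp f 2 ν) :
    MemLp (fun p : ℝ × S => f p.2) 2 (nuh ν) :=
  hf.comp_measurePreserving (measurePreserving_snd (μ := lam) (ν := ν))

theorem memLp_fst {h : ℝ × S → ℝ} (hh : MemLp h 2 (nuh ν)) :
    MemLp (fun p : ℝ × S => p.1 * h p) 2 (nuh ν) := by
  refine MemLp.of_le hh (measurable_fst.aestronglyMeasurable.mul hh.aestronglyMeasurable) ?_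
  filter_upwards [ae01 (ν := ν)] with p hp
  rw [norm_mul, Real.norm_eq_abs, abs_of_pos hp.1]
  exact mul_le_of_le_one_left (norm_nonneg _) hp.2.le

theorem meas_ind {B : Set S} (hB : MeasurableSet B) :
    Measurable (fun p : ℝ × S => B.indicator (1 : S → ℝ) p.2) :=
  (measurable_one.indicator hB).comp measurable_snd

theorem memLp_ind {B : Set S} (hB : MeasurableSet B) {h : ℝ × S → ℝ} (hh : MemLp h 2 (nuh ν)) :
    MemLp (fun p : ℝ × S => B.indicator 1 p.2 * h p) 2 (nuh ν) := by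
  refine MemLp.of_le hh ((meas_ind hB).aestronglyMeasurable.mul hh.aestronglyMeasurable) ?_
  refine ae_of_all _ fun p => ?_
  rw [norm_mul]
  refine mul_le_of_le_one_left (norm_nonneg _) ?_
  by_cases hp : p.2 ∈ B
  · simp [Set.indicator_of_mem hp]
  · simp [Set.indicator_of_notMem hp]

theorem gam_facts (hHAT : S_HAT) (hTT : S_TT) (Q : Kernel S S) [IsMarkovKernel Q]
    (hQ : ν.bind Q = ν) {f : S → ℝ} (mf : Measurable f) (lf : MemLp f 2 ν) {B : ℕ → Set S}
    (hB : ∀ t, MeasurableSet (B t)) (i z : ℕ) :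
    Measurable (gam Q f B i z) ∧ MemLp (gam Q f B i z) 2 (nuh ν) := by
  obtain ⟨-, hb⟩ := hHAT S Q ν hQ
  obtain ⟨t1, -, t3, -⟩ := hTT (ℝ × S) (Qh Q) (nuh ν) hb
  induction i generalizing z with
  | zero => exact ⟨measurable_const, MemLp.zero'⟩
  | succ i ih =>
    obtain ⟨h1, h2⟩ := ih (z + 1)
    refine ⟨?_, ?_⟩
    · exact (meas_ind (hB z)).mul ((mf.comp measurable_snd).add
        (measurable_fst.mul (t1 _ h1)))
    · exact memLp_ind (hB z) ((memLp_snd lf).add (memLp_fst (t3 _ h2).1))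

theorem Gst_facts (hHAT : S_HAT) (hBK1 : S_BK1) (Q : Kernel S S) [IsMarkovKernel Q]
    (hQ : ν.bind Q = ν) {f : S → ℝ} (lf : MemLp f 2 ν) {B : ℕ → Set S}
    (hB : ∀ t, MeasurableSet (B t)) (t : ℕ) :
    MemLp (Gst Q ν f B t) 2 (nuh ν) := by
  obtain ⟨-, hb⟩ := hHAT S Q ν hQ
  obtain ⟨b1, -⟩ := hBK1 (ℝ × S) (Qh Q) (nuh ν) hb
  induction t with
  | zero => exact memLp_snd (lf.indicator (hB 0))
  | succ t ih => exact memLp_ind (hB (t + 1)) ((memLp_snd lf).add (memLp_fst (b1 _ ih).2.1))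

theorem Gst_supp (Q : Kernel S S) (ν : Measure S) (f : S → ℝ) (B : ℕ → Set S) (t : ℕ)
    (p : ℝ × S) : (B t).indicator 1 p.2 * Gst Q ν f B t p = Gst Q ν f B t p := by
  by_cases hp : p.2 ∈ B t
  · rw [Set.indicator_of_mem hp, Pi.one_apply, one_mul]
  · cases t with
    | zero =>
      show (B 0).indicator 1 p.2 * (B 0).indicator f p.2 = (B 0).indicator f p.2
      rw [Set.indicator_of_notMem hp, Set.indicator_of_notMem hp, mul_zero]
    | succ t =>
      show (B (t + 1)).indicator 1 p.2 * ((B (t + 1)).indicator 1 p.2 * _) =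
        (B (t + 1)).indicator 1 p.2 * _
      rw [Set.indicator_of_notMem hp, zero_mul, zero_mul]

theorem sqT_zero (F : ℝ × S → ℝ) (x : S) : sqT 0 F x = ∫ r, F (r, x) ^ 2 ∂lam := by
  unfold sqT
  refine integral_congr_ae ?_
  filter_upwards [ae_lam] with r hr
  rw [Set.indicator_of_mem]
  exact hr.1

theorem sqT_int {F : ℝ × S → ℝ} (hF : MemLp F 2 (nuh ν)) : Integrable (sqT 0 F) ν := by
  have h1 : sqT 0 F = fun x => ∫ r, F (r, x) ^ 2 ∂lam := funext fun x => sqT_zero F x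
  rw [h1]
  have h2 : Integrable (fun p => F p ^ 2) (lam.prod ν) := hF.integrable_sq
  exact h2.integral_prod_right

/-- Fubini -/
theorem fub {F : ℝ × S → ℝ} (hF : MemLp F 2 (nuh ν)) {B : Set S} (hB : MeasurableSet B) :
    ∫ p, (B.indicator 1 p.2 * F p) ^ 2 ∂(nuh ν) = ∫ x, B.indicator (sqT 0 F) x ∂ν := by
  have h2 : Integrable (fun p => (B.indicator 1 p.2 * F p) ^ 2) (lam.prod ν) :=
    (memLp_ind hB hF).integrable_sq
  unfold nuh
  rw [integral_prod_symm _ h2]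
  refine integral_congr_ae (ae_of_all _ fun x => ?_)
  show ∫ r, (B.indicator 1 x * F (r, x)) ^ 2 ∂lam = B.indicator (sqT 0 F) x
  by_cases hx : x ∈ B
  · rw [Set.indicator_of_mem hx, Set.indicator_of_mem hx, sqT_zero]
    simp
  · rw [Set.indicator_of_notMem hx, Set.indicator_of_notMem hx]
    simp

end Pool.Agent.N507.ME
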