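import Pool.Agent.N507.ME.Sm

/-!
PROJECT ME (helper939), part ME10 (helper507): small sets and the variance.
-/

set_option autoImplicit false
open MeasureTheory ProbabilityTheory Filter Topology Finset
open scoped Classical

namespace Pool.Agent.N507.ME

open Pool.Agent.N939.ME

variable {S : Type} [MeasurableSpace S] {ν : Measure S} [IsProbabilityMeasure ν]

theorem int4 {X : Type} [MeasurableSpace X] {m : Measure X} {g a b c d : X → ℝ} {k l : ℝ}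
    (ha : Integrable a m) (hb : Integrable b m) (hc : Integrable c m) (hd : Integrable d m)
    (hg : Integrable g m) (h : ∀ p, g p ≤ k * (a p + b p) + l * (c p + d p)) :
    ∫ p, g p ∂m ≤ k * (∫ p, a p ∂m + ∫ p, b p ∂m) + l * (∫ p, c p ∂m + ∫ p, d p ∂m) := by
  refine (integral_mono hg (((ha.add hb).const_mul k).add ((hc.add hd).const_mul l)) h).trans
    (le_of_eq ?_)
  have e1 : ∫ p, (k * (a p + b p) + l * (c p + d p)) ∂m =
      ∫ p, k * (a p + b p) ∂m + ∫ p, l * (c p + d p) ∂m :=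
    integral_add ((ha.add hb).const_mul k) ((hc.add hd).const_mul l)
  have e2 : ∫ p, k * (a p + b p) ∂m = k * (∫ p, a p ∂m + ∫ p, b p ∂m) := by
    rw [integral_const_mul]
    congr 1
    exact integral_add ha hb
  have e3 : ∫ p, l * (c p + d p) ∂m = l * (∫ p, c p ∂m + ∫ p, d p ∂m) := by
    rw [integral_const_mul]
    congr 1
    exact integral_add hc hd
  show ∫ p, (k * (a p + b p) + l * (c p + d p)) ∂m = _
  rw [e1, e2, e3]

theorem MemLp.mulI {X : Type} [MeasurableSpace X] {m : Measure X} {a b : X → ℝ}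
    (ha : MemLp a 2 m) (hb : MemLp b 2 m) : Integrable (fun p => a p * b p) m :=
  MemLp.integrable_mul ha hb

/-- one term for small sets -/
theorem term_sm (hHAT : S_HAT) (hTT : S_TT) (hBK1 : S_BK1) (Q : Kernel S S) [IsMarkovKernel Q]
    (hQ : ν.bind Q = ν) {f : S → ℝ} {Φ Ψ : ℝ × S → ℝ} (hR : Res Q ν f Φ Ψ) {B : ℕ → Set S}
    (hB : ∀ t, MeasurableSet (B t)) (i t : ℕ) :
    2 * ∫ p, Gst Q ν f B t p * TT (Qh Q) (gam Q f B i (t + 1)) p ∂(nuh ν) ≤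
      2 * (∫ x, (B t).indicator (sqT 0 Ψ) x ∂ν + ∫ x, (B t).indicator (sqT 0 (TT (Qh Q) Φ)) x ∂ν)
      + 2 * (∫ p, ((B t).indicator 1 p.2 * Ψ p - Gst Q ν f B t p) ^ 2 ∂(nuh ν)
        + ∫ p, ((B t).indicator 1 p.2 *
          (TT (Qh Q) Φ p - TT (Qh Q) (gam Q f B i (t + 1)) p)) ^ 2 ∂(nuh ν)) := by
  obtain ⟨-, hb⟩ := hHAT S Q ν hQ
  obtain ⟨t1, -, t3, -⟩ := hTT (ℝ × S) (Qh Q) (nuh ν) hb
  have lT := (t3 Φ hR.lΦ).1
  have lG := Gst_facts hHAT hBK1 Q hQ hR.lf hB t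
  have lg := (t3 _ (gam_facts hHAT hTT Q hQ hR.mf hR.lf hB i (t + 1)).2).1
  rw [← fub hR.lΨ (hB t), ← fub lT (hB t), ← integral_const_mul]
  refine int4 (memLp_ind (hB t) hR.lΨ).integrable_sq (memLp_ind (hB t) lT).integrable_sq
    ((memLp_ind (hB t) hR.lΨ).sub lG).integrable_sq
    (memLp_ind (hB t) (lT.sub lg)).integrable_sq ((MemLp.mulI lG lg).const_mul 2) ?_
  intro p
  have hs := Gst_supp Q ν f B t p
  generalize (B t).indicator (1 : S → ℝ) p.2 = b at *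
  generalize Gst Q ν f B t p = G at *
  generalize TT (Qh Q) (gam Q f B i (t + 1)) p = g at *
  generalize TT (Qh Q) Φ p = φ at *
  generalize Ψ p = ψ at *
  have e1 : G * g = G * (b * g) := by
    calc G * g = (b * G) * g := by rw [hs]
      _ = G * (b * g) := by ring
  rw [e1]
  have e2 : b * (φ - g) = b * φ - b * g := by ring
  rw [e2]
  generalize b * g = y
  generalize b * φ = z
  generalize b * ψ = w
  nlinarith [sq_nonneg (G - y), sq_nonneg (2 * w - G), sq_nonneg (2 * z - y)]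

/-- the error terms with `r0 = 0` -/
theorem err (hZF : S_ZF) (hZB : S_ZB) (Q : Kernel S S) [IsMarkovKernel Q]
    (hQ : ν.bind Q = ν) {f : S → ℝ} {Φ Ψ : ℝ × S → ℝ} (hR : Res Q ν f Φ Ψ) {M : ℝ} (hM : 0 ≤ M)
    {B : ℕ → Set S} (hB : ∀ t, MeasurableSet (B t))
    (hout : ∀ t, ∀ᵐ x ∂ν, x ∉ B t → sqT 0 Φ x ≤ M ∧ sqT 0 Ψ x ≤ M) (N : ℕ) :
    ∑ t ∈ range (N - 1), (∫ p, ((B t).indicator 1 p.2 * Ψ p - Gst Q ν f B t p) ^ 2 ∂(nuh ν)
        + ∫ p, ((B t).indicator 1 p.2 *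
          (TT (Qh Q) Φ p - TT (Qh Q) (gam Q f B (N - 1 - t) (t + 1)) p)) ^ 2 ∂(nuh ν)) ≤
      4 * ∑ t ∈ range (N - 1), M * ν.real (B t)
      + 2 * ∫ p, (Φ p ^ 2 + Ψ p ^ 2) * ∑ i ∈ range N, p.1 ^ (2 * i) ∂(nuh ν) := by
  have h1 := hZF S Q ν hQ f Φ Ψ hR M M 0 hM hM le_rfl zero_lt_one B hB
    (fun t => by
      filter_upwards [hout t] with x hx hxB
      exact ⟨(hx hxB).1, (hx hxB).1⟩) Set.univ MeasurableSet.univ N
  have h2 := hZB S Q ν hQ f Φ Ψ hR M M 0 hM hM le_rfl zero_lt_one B hB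
    (fun t => by
      filter_upwards [hout t] with x hx hxB
      exact ⟨(hx hxB).2, (hx hxB).2⟩) Set.univ MeasurableSet.univ N
  have e1 : ∀ (C : Set S) (g : S → ℝ), ∫ x, (C \ Set.univ).indicator g x ∂ν = 0 := by
    intro C g
    rw [Set.sdiff_univ]
    simp
  simp only [e1, add_zero, Set.inter_univ] at h1 h2
  rw [sum_add_distrib]
  have w : ∀ F : ℝ × S → ℝ, MemLp F 2 (nuh ν) →
      Integrable (fun p => F p ^ 2 * ∑ i ∈ range N, p.1 ^ (2 * i)) (nuh ν) := by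
    intro F hF
    refine Integrable.mono' (g := fun p => (N : ℝ) * F p ^ 2) (hF.integrable_sq.const_mul _) ?_ ?_
    · refine hF.integrable_sq.aestronglyMeasurable.mul ?_
      refine Measurable.aestronglyMeasurable ?_
      exact Finset.measurable_fun_sum _ fun i _ => measurable_fst.pow_const _
    · filter_upwards [ae01 (ν := ν)] with p hp
      obtain ⟨g1, g2, -⟩ := geom_le hp N
      rw [Real.norm_eq_abs, abs_of_nonneg (mul_nonneg (sq_nonneg _) g1), mul_comm]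
      exact mul_le_mul_of_nonneg_right g2 (sq_nonneg _)
  have e2 : ∫ p, (Φ p ^ 2 + Ψ p ^ 2) * ∑ i ∈ range N, p.1 ^ (2 * i) ∂(nuh ν) =
      ∫ p, Φ p ^ 2 * ∑ i ∈ range N, p.1 ^ (2 * i) ∂(nuh ν)
      + ∫ p, Ψ p ^ 2 * ∑ i ∈ range N, p.1 ^ (2 * i) ∂(nuh ν) := by
    rw [← integral_add (w Φ hR.lΦ) (w Ψ hR.lΨ)]
    refine integral_congr_ae (ae_of_all _ fun p => ?_)
    show _ = _
    ring
  rw [e2]
  linarith

theorem sm (hHAT : S_HAT) (hTT : S_TT) (hBK1 : S_BK1) (hEN2 : S_EN2) (hZF : S_ZF)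
    (hZB : S_ZB) : S_SM := by
  intro S _ Q _ ν _ hQ f Φ Ψ hR M hM B hB hout N
  obtain ⟨-, hb⟩ := hHAT S Q ν hQ
  obtain ⟨t1, -, t3, -⟩ := hTT (ℝ × S) (Qh Q) (nuh ν) hb
  have lT := (t3 Φ hR.lΦ).1
  rw [hEN2 S Q ν hQ f hR.mf hR.lf B hB N]
  have h1 := err hZF hZB Q hQ hR hM hB hout N
  have h2 : ∀ t ∈ range (N - 1), 2 * ∫ p, Gst Q ν f B t p *
      TT (Qh Q) (gam Q f B (N - 1 - t) (t + 1)) p ∂(nuh ν) ≤ _ := fun t _ =>
    term_sm hHAT hTT hBK1 Q hQ hR hB (N - 1 - t) t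
  have h3 := Finset.sum_le_sum h2
  rw [← mul_sum, sum_add_distrib, ← mul_sum, ← mul_sum] at h3
  -- the integrals over `B t`
  have h4 : ∀ t, ∫ x, (B t).indicator
      (fun x => f x ^ 2 + 2 * sqT 0 Ψ x + 2 * sqT 0 (TT (Qh Q) Φ) x) x ∂ν =
      ∫ x, (B t).indicator (fun y => f y ^ 2) x ∂ν + 2 * (∫ x, (B t).indicator (sqT 0 Ψ) x ∂ν +
        ∫ x, (B t).indicator (sqT 0 (TT (Qh Q) Φ)) x ∂ν) := by
    intro t
    rw [integral_indicator (hB t), integral_indicator (hB t), integral_indicator (hB t),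
      integral_indicator (hB t)]
    have i1 : Integrable (fun y => f y ^ 2) (ν.restrict (B t)) := hR.lf.integrable_sq.restrict
    have i2 : Integrable (sqT 0 Ψ) (ν.restrict (B t)) := (sqT_int hR.lΨ).restrict
    have i3 : Integrable (sqT 0 (TT (Qh Q) Φ)) (ν.restrict (B t)) := (sqT_int lT).restrict
    have k1 : ∫ x, (f x ^ 2 + 2 * sqT 0 Ψ x + 2 * sqT 0 (TT (Qh Q) Φ) x) ∂(ν.restrict (B t)) =
        ∫ x, (f x ^ 2 + 2 * sqT 0 Ψ x) ∂(ν.restrict (B t)) +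
          ∫ x, 2 * sqT 0 (TT (Qh Q) Φ) x ∂(ν.restrict (B t)) :=
      integral_add (i1.add (i2.const_mul 2)) (i3.const_mul 2)
    have k2 : ∫ x, (f x ^ 2 + 2 * sqT 0 Ψ x) ∂(ν.restrict (B t)) =
        ∫ x, f x ^ 2 ∂(ν.restrict (B t)) + ∫ x, 2 * sqT 0 Ψ x ∂(ν.restrict (B t)) :=
      integral_add i1 (i2.const_mul 2)
    rw [k1, k2, integral_const_mul, integral_const_mul]
    ring
  have h5 : ∀ t, 0 ≤ 2 * (∫ x, (B t).indicator (sqT 0 Ψ) x ∂ν +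
      ∫ x, (B t).indicator (sqT 0 (TT (Qh Q) Φ)) x ∂ν) + 8 * M * ν.real (B t) := by
    intro t
    have j1 : 0 ≤ ∫ x, (B t).indicator (sqT 0 Ψ) x ∂ν := by
      rw [← fub hR.lΨ (hB t)]
      exact integral_nonneg fun p => sq_nonneg _
    have j2 : 0 ≤ ∫ x, (B t).indicator (sqT 0 (TT (Qh Q) Φ)) x ∂ν := by
      rw [← fub lT (hB t)]
      exact integral_nonneg fun p => sq_nonneg _
    have j3 : 0 ≤ ν.real (B t) := measureReal_nonneg
    positivity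
  have h6 : ∑ t ∈ range (N - 1), (2 * (∫ x, (B t).indicator (sqT 0 Ψ) x ∂ν +
      ∫ x, (B t).indicator (sqT 0 (TT (Qh Q) Φ)) x ∂ν) + 8 * M * ν.real (B t)) ≤
      ∑ t ∈ range N, (2 * (∫ x, (B t).indicator (sqT 0 Ψ) x ∂ν +
      ∫ x, (B t).indicator (sqT 0 (TT (Qh Q) Φ)) x ∂ν) + 8 * M * ν.real (B t)) :=
    Finset.sum_le_sum_of_subset_of_nonneg (range_mono (Nat.sub_le _ _)) fun t _ _ => h5 t
  simp only [h4]
  have h7 : ∑ t ∈ range N, (∫ x, (B t).indicator (fun y => f y ^ 2) x ∂ν +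
      2 * (∫ x, (B t).indicator (sqT 0 Ψ) x ∂ν +
        ∫ x, (B t).indicator (sqT 0 (TT (Qh Q) Φ)) x ∂ν) + 8 * M * ν.real (B t)) =
      ∑ t ∈ range N, ∫ x, (B t).indicator (fun y => f y ^ 2) x ∂ν +
      ∑ t ∈ range N, (2 * (∫ x, (B t).indicator (sqT 0 Ψ) x ∂ν +
      ∫ x, (B t).indicator (sqT 0 (TT (Qh Q) Φ)) x ∂ν) + 8 * M * ν.real (B t)) := by
    rw [← sum_add_distrib]
    exact sum_congr rfl fun t _ => by ring
  rw [h7]
  have h8 : ∑ t ∈ range (N - 1), (2 * (∫ x, (B t).indicator (sqT 0 Ψ) x ∂ν +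
      ∫ x, (B t).indicator (sqT 0 (TT (Qh Q) Φ)) x ∂ν) + 8 * M * ν.real (B t)) =
      2 * ∑ t ∈ range (N - 1), (∫ x, (B t).indicator (sqT 0 Ψ) x ∂ν +
      ∫ x, (B t).indicator (sqT 0 (TT (Qh Q) Φ)) x ∂ν) +
      8 * ∑ t ∈ range (N - 1), M * ν.real (B t) := by
    rw [mul_sum, mul_sum, ← sum_add_distrib]
    exact sum_congr rfl fun t _ => by ring
  linarith

end Pool.Agent.N507.ME
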