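import Pool.Agent.N507.ME.Sm2

/-!
PROJECT ME (helper939), part ME10 (helper507): the variance.
-/

set_option autoImplicit false
open MeasureTheory ProbabilityTheory Filter Topology Finset
open scoped Classical

namespace Pool.Agent.N507.ME

open Pool.Agent.N939.ME

variable {S : Type} [MeasurableSpace S] {ν : Measure S} [IsProbabilityMeasure ν]

theorem pt_var {l e φ ψ η ζ : ℝ} (hl : 0 < l) (hle : l * e = 1) :
    2 * ((ψ - η) * (φ - ζ) - ψ * φ) ≤ l * (φ ^ 2 + ψ ^ 2) + (1 + e) * (η ^ 2 + ζ ^ 2) ∧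
    -(2 * ((ψ - η) * (φ - ζ) - ψ * φ)) ≤ l * (φ ^ 2 + ψ ^ 2) + (1 + e) * (η ^ 2 + ζ ^ 2) := by
  have a1 : 0 ≤ l * (φ + e * η) ^ 2 := by positivity
  have a2 : 0 ≤ l * (ψ + e * ζ) ^ 2 := by positivity
  have a3 : 0 ≤ l * (φ - e * η) ^ 2 := by positivity
  have a4 : 0 ≤ l * (ψ - e * ζ) ^ 2 := by positivity
  have b1 : l * (φ + e * η) ^ 2 = l * φ ^ 2 + 2 * η * φ + e * η ^ 2 := by
    linear_combination (2 * φ * η + e * η ^ 2) * hle
  have b2 : l * (ψ + e * ζ) ^ 2 = l * ψ ^ 2 + 2 * ζ * ψ + e * ζ ^ 2 := by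
    linear_combination (2 * ψ * ζ + e * ζ ^ 2) * hle
  have b3 : l * (φ - e * η) ^ 2 = l * φ ^ 2 - 2 * η * φ + e * η ^ 2 := by
    linear_combination (-2 * φ * η + e * η ^ 2) * hle
  have b4 : l * (ψ - e * ζ) ^ 2 = l * ψ ^ 2 - 2 * ζ * ψ + e * ζ ^ 2 := by
    linear_combination (-2 * ψ * ζ + e * ζ ^ 2) * hle
  rw [b1] at a1
  rw [b2] at a2
  rw [b3] at a3
  rw [b4] at a4
  constructor
  · nlinarith [sq_nonneg (η - ζ)]
  · nlinarith [sq_nonneg (η + ζ)]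

/-- one term for the variance -/
theorem term_var (hHAT : S_HAT) (hTT : S_TT) (hBK1 : S_BK1) (Q : Kernel S S) [IsMarkovKernel Q]
    (hQ : ν.bind Q = ν) {f : S → ℝ} {Φ Ψ : ℝ × S → ℝ} (hR : Res Q ν f Φ Ψ) (i t : ℕ)
    {l e : ℝ} (hl : 0 < l) (hle : l * e = 1) :
    |2 * ∫ p, Gst Q ν f (fun _ => Set.univ) t p *
        TT (Qh Q) (gam Q f (fun _ => Set.univ) i (t + 1)) p ∂(nuh ν)
      - 2 * ∫ p, Ψ p * TT (Qh Q) Φ p ∂(nuh ν)| ≤
      l * (∫ p, TT (Qh Q) Φ p ^ 2 ∂(nuh ν) + ∫ p, Ψ p ^ 2 ∂(nuh ν))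
      + (1 + e) * (∫ p, ((Set.univ : Set S).indicator 1 p.2 * Ψ p -
          Gst Q ν f (fun _ => Set.univ) t p) ^ 2 ∂(nuh ν)
        + ∫ p, ((Set.univ : Set S).indicator 1 p.2 *
          (TT (Qh Q) Φ p - TT (Qh Q) (gam Q f (fun _ => Set.univ) i (t + 1)) p)) ^ 2 ∂(nuh ν)) := by
  obtain ⟨-, hb⟩ := hHAT S Q ν hQ
  obtain ⟨t1, -, t3, -⟩ := hTT (ℝ × S) (Qh Q) (nuh ν) hb
  have hB : ∀ t : ℕ, MeasurableSet ((fun _ : ℕ => (Set.univ : Set S)) t) := fun _ =>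
    MeasurableSet.univ
  have lT := (t3 Φ hR.lΦ).1
  have lG := Gst_facts hHAT hBK1 Q hQ hR.lf hB t
  have lg := (t3 _ (gam_facts hHAT hTT Q hQ hR.mf hR.lf hB i (t + 1)).2).1
  have i0 : Integrable (fun p => 2 * (Gst Q ν f (fun _ => Set.univ) t p *
      TT (Qh Q) (gam Q f (fun _ => Set.univ) i (t + 1)) p - Ψ p * TT (Qh Q) Φ p)) (nuh ν) :=
    ((MemLp.mulI lG lg).sub (MemLp.mulI hR.lΨ lT)).const_mul 2
  have e0 : 2 * ∫ p, Gst Q ν f (fun _ => Set.univ) t p *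
        TT (Qh Q) (gam Q f (fun _ => Set.univ) i (t + 1)) p ∂(nuh ν)
      - 2 * ∫ p, Ψ p * TT (Qh Q) Φ p ∂(nuh ν) =
      ∫ p, 2 * (Gst Q ν f (fun _ => Set.univ) t p *
      TT (Qh Q) (gam Q f (fun _ => Set.univ) i (t + 1)) p - Ψ p * TT (Qh Q) Φ p) ∂(nuh ν) := by
    rw [integral_const_mul, integral_sub (MemLp.mulI lG lg) (MemLp.mulI hR.lΨ lT)]
    ring
  have hu : ∀ x : S, (Set.univ : Set S).indicator (1 : S → ℝ) x = 1 := fun x => by simp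
  have key : ∀ p, 2 * (Gst Q ν f (fun _ => Set.univ) t p *
      TT (Qh Q) (gam Q f (fun _ => Set.univ) i (t + 1)) p - Ψ p * TT (Qh Q) Φ p) ≤
      l * (TT (Qh Q) Φ p ^ 2 + Ψ p ^ 2) + (1 + e) * (((Set.univ : Set S).indicator 1 p.2 * Ψ p -
          Gst Q ν f (fun _ => Set.univ) t p) ^ 2 + ((Set.univ : Set S).indicator 1 p.2 *
          (TT (Qh Q) Φ p - TT (Qh Q) (gam Q f (fun _ => Set.univ) i (t + 1)) p)) ^ 2) ∧
      -(2 * (Gst Q ν f (fun _ => Set.univ) t p *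
      TT (Qh Q) (gam Q f (fun _ => Set.univ) i (t + 1)) p - Ψ p * TT (Qh Q) Φ p)) ≤
      l * (TT (Qh Q) Φ p ^ 2 + Ψ p ^ 2) + (1 + e) * (((Set.univ : Set S).indicator 1 p.2 * Ψ p -
          Gst Q ν f (fun _ => Set.univ) t p) ^ 2 + ((Set.univ : Set S).indicator 1 p.2 *
          (TT (Qh Q) Φ p - TT (Qh Q) (gam Q f (fun _ => Set.univ) i (t + 1)) p)) ^ 2) := by
    intro p
    rw [hu, one_mul, one_mul]
    generalize Gst Q ν f (fun _ => Set.univ) t p = G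
    generalize TT (Qh Q) (gam Q f (fun _ => Set.univ) i (t + 1)) p = g
    generalize TT (Qh Q) Φ p = φ
    generalize Ψ p = ψ
    have h := pt_var (l := l) (e := e) (φ := φ) (ψ := ψ) (η := ψ - G) (ζ := φ - g) hl hle
    rw [sub_sub_cancel, sub_sub_cancel] at h
    exact h
  rw [e0, abs_le]
  constructor
  · have h := int4 lT.integrable_sq hR.lΨ.integrable_sq
      ((memLp_ind (hB t) hR.lΨ).sub lG).integrable_sq
      (memLp_ind (hB t) (lT.sub lg)).integrable_sq i0.neg (fun p => (key p).2)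
    have e1 : ∫ p, (-fun p => 2 * (Gst Q ν f (fun _ => Set.univ) t p *
      TT (Qh Q) (gam Q f (fun _ => Set.univ) i (t + 1)) p - Ψ p * TT (Qh Q) Φ p)) p ∂(nuh ν) =
      -∫ p, 2 * (Gst Q ν f (fun _ => Set.univ) t p *
      TT (Qh Q) (gam Q f (fun _ => Set.univ) i (t + 1)) p - Ψ p * TT (Qh Q) Φ p) ∂(nuh ν) :=
      integral_neg _
    rw [e1] at h
    exact neg_le.1 h
  · exact int4 lT.integrable_sq hR.lΨ.integrable_sq
      ((memLp_ind (hB t) hR.lΨ).sub lG).integrable_sq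
      (memLp_ind (hB t) (lT.sub lg)).integrable_sq i0 (fun p => (key p).1)

theorem var (hHAT : S_HAT) (hTT : S_TT) (hBK1 : S_BK1) (hEN2 : S_EN2) (hZF : S_ZF)
    (hZB : S_ZB) (hON : S_ON) : S_VAR := by
  intro S _ Q _ ν _ hQ f Φ Ψ hR
  have hB : ∀ t : ℕ, MeasurableSet ((fun _ : ℕ => (Set.univ : Set S)) t) := fun _ =>
    MeasurableSet.univ
  obtain ⟨C, hC⟩ : ∃ C, C = ∫ p, TT (Qh Q) Φ p ^ 2 ∂(nuh ν) + ∫ p, Ψ p ^ 2 ∂(nuh ν) := ⟨_, rfl⟩
  obtain ⟨J, hJ⟩ : ∃ J, J = ∫ p, Ψ p * TT (Qh Q) Φ p ∂(nuh ν) := ⟨_, rfl⟩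
  obtain ⟨I, hI⟩ : ∃ I, I = ∫ x, f x ^ 2 ∂ν := ⟨_, rfl⟩
  have hC0 : 0 ≤ C := by
    rw [hC]
    exact add_nonneg (integral_nonneg fun p => sq_nonneg _) (integral_nonneg fun p => sq_nonneg _)
  have hon := hON S ν (fun p => Φ p ^ 2 + Ψ p ^ 2)
    (hR.lΦ.integrable_sq.add hR.lΨ.integrable_sq)
  have hen : ∀ N, enu Q ν f (fun _ => Set.univ) N = N * I + ∑ t ∈ range (N - 1),
      2 * ∫ p, Gst Q ν f (fun _ => Set.univ) t p *
        TT (Qh Q) (gam Q f (fun _ => Set.univ) (N - 1 - t) (t + 1)) p ∂(nuh ν) := by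
    intro N
    rw [hEN2 S Q ν hQ f hR.mf hR.lf _ hB N, mul_sum, hI]
    congr 1
    simp
  have hbound : ∀ (l e : ℝ), 0 < l → l * e = 1 → ∀ N : ℕ, 1 ≤ N →
      |enu Q ν f (fun _ => Set.univ) N - N * (I + 2 * J)| ≤ N * (l * C) +
        (1 + e) * (2 * ∫ p, (Φ p ^ 2 + Ψ p ^ 2) * ∑ i ∈ range N, p.1 ^ (2 * i) ∂(nuh ν))
        + 2 * |J| := by
    intro l e hl hle N hN
    have he : 0 < e := by
      by_contra hcon
      push Not at hcon
      nlinarith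
    have h1 := err hZF hZB Q hQ hR le_rfl hB (fun t => ae_of_all _ fun x hx =>
      absurd (Set.mem_univ x) hx) N
    simp only [zero_mul, sum_const_zero, mul_zero, zero_add] at h1
    have h2 : |∑ t ∈ range (N - 1), (2 * ∫ p, Gst Q ν f (fun _ => Set.univ) t p *
        TT (Qh Q) (gam Q f (fun _ => Set.univ) (N - 1 - t) (t + 1)) p ∂(nuh ν) - 2 * J)| ≤
        ∑ t ∈ range (N - 1), (l * C + (1 + e) * (∫ p, ((Set.univ : Set S).indicator 1 p.2 * Ψ p -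
          Gst Q ν f (fun _ => Set.univ) t p) ^ 2 ∂(nuh ν)
        + ∫ p, ((Set.univ : Set S).indicator 1 p.2 *
          (TT (Qh Q) Φ p - TT (Qh Q) (gam Q f (fun _ => Set.univ) (N - 1 - t) (t + 1)) p)) ^ 2
            ∂(nuh ν))) := by
      refine (Finset.abs_sum_le_sum_abs _ _).trans (Finset.sum_le_sum fun t _ => ?_)
      rw [hC, hJ]
      exact term_var hHAT hTT hBK1 Q hQ hR (N - 1 - t) t hl hle
    rw [sum_add_distrib, sum_const, card_range, nsmul_eq_mul, ← mul_sum] at h2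
    have h3 := mul_le_mul_of_nonneg_left h1 (by linarith : (0 : ℝ) ≤ 1 + e)
    have hN1 : ((N - 1 : ℕ) : ℝ) = N - 1 := by
      rw [Nat.cast_sub hN, Nat.cast_one]
    have h4 : enu Q ν f (fun _ => Set.univ) N - N * (I + 2 * J) =
        ∑ t ∈ range (N - 1), (2 * ∫ p, Gst Q ν f (fun _ => Set.univ) t p *
        TT (Qh Q) (gam Q f (fun _ => Set.univ) (N - 1 - t) (t + 1)) p ∂(nuh ν) - 2 * J)
        - 2 * J := by
      rw [hen N, sum_sub_distrib, sum_const, card_range, nsmul_eq_mul, hN1]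
      ring
    rw [h4]
    have h5 : |2 * J| = 2 * |J| := by rw [abs_mul, abs_two]
    refine (abs_sub _ _).trans ?_
    rw [h5]
    rw [hN1] at h2
    have h6 : ((N : ℝ) - 1) * (l * C) ≤ N * (l * C) :=
      mul_le_mul_of_nonneg_right (by linarith) (mul_nonneg hl.le hC0)
    linarith
  have hsg : sg Q ν f Φ Ψ = I + 2 * J := by
    unfold sg
    rw [hI, hJ]
  rw [hsg, Metric.tendsto_nhds]
  intro ε hε
  obtain ⟨l, hldef⟩ : ∃ l : ℝ, l = ε / (2 * (C + 1)) := ⟨_, rfl⟩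
  have hl : 0 < l := by rw [hldef]; positivity
  have hlC : l * C < ε / 2 := by
    have : l * (C + 1) = ε / 2 := by rw [hldef]; field_simp
    nlinarith
  have hlim : Tendsto (fun N : ℕ => (1 + l⁻¹) * (2 * ((∫ p, (Φ p ^ 2 + Ψ p ^ 2) *
      ∑ i ∈ range N, p.1 ^ (2 * i) ∂(nuh ν)) / N)) + 2 * |J| / N) atTop (𝓝 0) := by
    have h1 := (hon.const_mul 2).const_mul (1 + l⁻¹)
    have h2 := tendsto_const_div_atTop_nhds_zero_nat (2 * |J|)
    have h3 := h1.add h2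
    simpa using h3
  filter_upwards [hlim.eventually (Iio_mem_nhds (half_pos hε)), eventually_ge_atTop 1] with N h1 h2
  have h1' : (1 + l⁻¹) * (2 * ((∫ p, (Φ p ^ 2 + Ψ p ^ 2) *
      ∑ i ∈ range N, p.1 ^ (2 * i) ∂(nuh ν)) / N)) + 2 * |J| / N < ε / 2 := h1
  have hN : (0 : ℝ) < N := by exact_mod_cast h2
  have h3 := hbound l l⁻¹ hl (mul_inv_cancel₀ hl.ne') N h2
  rw [Real.dist_eq]
  have h4 : enu Q ν f (fun _ => Set.univ) N / N - (I + 2 * J) =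
      (enu Q ν f (fun _ => Set.univ) N - N * (I + 2 * J)) / N := by
    field_simp
  rw [h4, abs_div, abs_of_pos hN]
  have h5 := div_le_div_of_nonneg_right h3 hN.le
  refine lt_of_le_of_lt h5 ?_
  have h6 : (N * (l * C) +
        (1 + l⁻¹) * (2 * ∫ p, (Φ p ^ 2 + Ψ p ^ 2) * ∑ i ∈ range N, p.1 ^ (2 * i) ∂(nuh ν))
        + 2 * |J|) / N = l * C + ((1 + l⁻¹) * (2 * ((∫ p, (Φ p ^ 2 + Ψ p ^ 2) *
      ∑ i ∈ range N, p.1 ^ (2 * i) ∂(nuh ν)) / N)) + 2 * |J| / N) := by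
    field_simp
    ring
  rw [h6]
  linarith

end Pool.Agent.N507.ME
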